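import Pool.Agent.H16.Cub.Mnr
import Pool.Agent.H16.Cub.Link

set_option autoImplicit false
set_option linter.unusedSectionVars false

/-! # Arcs of circuits -/

namespace Pool.Agent.H16.Cub

open Finset Pool.Agent.TH462.T4 Pool.Agent.TH676.T4

variable {V E : Type} [Fintype V] [DecidableEq V] [Fintype E] [DecidableEq E]
variable {src dst : E → V}

theorem conn_interval {c : ℕ → V} (hadj : ∀ t, Aj src dst (c t) (c (t + 1))) {a b : ℕ}
    (hab : a < b) : ConnSet src dst ((Finset.Ico a b).image c) := by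
  refine connSet_reach (c a) (fun u v => ∃ t, a ≤ t ∧ t + 1 < b ∧ u = c t ∧ v = c (t + 1))
    ?_ _ ?_
  · rintro u v ⟨t, _, _, rfl, rfl⟩
    exact hadj t
  · intro v
    rw [mem_image]
    constructor
    · rintro ⟨t, ht, rfl⟩
      rw [mem_Ico] at ht
      obtain ⟨n, rfl⟩ : ∃ n, t = a + n := ⟨t - a, by omega⟩
      have key : ∀ n, a + n < b → Relation.ReflTransGen
          (fun u v => ∃ t, a ≤ t ∧ t + 1 < b ∧ u = c t ∧ v = c (t + 1)) (c a) (c (a + n)) := by
        intro n
        induction n with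
        | zero => intro _; exact .refl
        | succ n ih =>
          intro h1
          exact (ih (by omega)).tail ⟨a + n, by omega, by omega, rfl, rfl⟩
      exact key n ht.2
    · intro h
      induction h with
      | refl => exact ⟨a, mem_Ico.mpr ⟨le_rfl, hab⟩, rfl⟩
      | tail _ h2 _ =>
        obtain ⟨t, h3, h4, _, h5⟩ := h2
        exact ⟨t + 1, mem_Ico.mpr ⟨by omega, h4⟩, h5.symm⟩

/-- five vertices of a circuit cut it into arcs -/
theorem arcs {k : ℕ} {c : ℕ → V} (h : Cyc (Aj src dst) k c) (z : Fin 5 → V)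
    (hz : ∀ i, ∃ t, z i = c t) (hinj : Function.Injective z) :
    ∃ (σ : Equiv.Perm (Fin 5)) (A : Fin 5 → Finset V), (∀ i, ConnSet src dst (A i)) ∧
      (∀ i j, i ≠ j → Disjoint (A i) (A j)) ∧ (∀ i, z (σ i) ∈ A i) ∧
      (∀ i, ∀ v ∈ A i, ∃ t, v = c t) ∧ ∀ i, ∃ e, JoinsSet src dst e (A i) (A (i + 1)) := by
  classical
  have h3 := h.three
  choose p hp using hz
  let p' : Fin 5 → ℕ := fun i => p i % k
  have hp' : ∀ i, z i = c (p' i) := fun i => by rw [hp i]; exact (h.mod _).symm
  have hp'k : ∀ i, p' i < k := fun i => Nat.mod_lt _ (by omega)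
  have hp'inj : Function.Injective p' := by
    intro i j hij
    apply hinj
    rw [hp', hp', hij]
  let σ := Tuple.sort p'
  have hmono : StrictMono (p' ∘ σ) :=
    (Tuple.monotone_sort p').strictMono_of_injective (hp'inj.comp σ.injective)
  set r := p' (σ 0) with hr
  let Q : Fin 5 → ℕ := fun i => p' (σ i) - r
  have hge : ∀ i, r ≤ p' (σ i) := fun i => (hmono.monotone (Fin.zero_le i))
  have hQ0 : Q 0 = 0 := by show p' (σ 0) - r = 0; omega
  have hQmono : ∀ i j, i < j → Q i < Q j := by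
    intro i j hij
    have h1 := hmono hij
    have h2 := hge i
    show p' (σ i) - r < p' (σ j) - r
    simp only [Function.comp] at h1
    omega
  have hQk : ∀ i, Q i < k := by
    intro i
    have := hp'k (σ i)
    show p' (σ i) - r < k
    omega
  have hc := h.rot r
  set c' : ℕ → V := fun t => c (t + r) with hc'
  have hzc : ∀ i, z (σ i) = c' (Q i) := by
    intro i
    rw [hp']
    show c (p' (σ i)) = c (Q i + r)
    congr 1
    have := hge i
    show p' (σ i) = p' (σ i) - r + r
    omega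
  let b : ℕ → ℕ := fun i => if hi : i < 5 then Q ⟨i, hi⟩ else k
  have hb0 : b 0 = 0 := by
    show (if hi : 0 < 5 then Q ⟨0, hi⟩ else k) = 0
    rw [dif_pos (by omega)]
    exact hQ0
  have hb5 : b 5 = k := by
    show (if hi : 5 < 5 then Q ⟨5, hi⟩ else k) = k
    rw [dif_neg (by omega)]
  have hbv : ∀ i : Fin 5, b i.val = Q i := by
    intro i
    show (if hi : i.val < 5 then Q ⟨i.val, hi⟩ else k) = Q i
    rw [dif_pos i.2]
  have hbk : ∀ i, b i ≤ k := by
    intro i
    by_cases hi : i < 5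
    · have := hQk ⟨i, hi⟩
      have e := hbv ⟨i, hi⟩
      simp only at e
      omega
    · show (if hi : i < 5 then Q ⟨i, hi⟩ else k) ≤ k
      rw [dif_neg hi]
  have hbs : ∀ i, i < 5 → b i < b (i + 1) := by
    intro i hi
    by_cases hi2 : i + 1 < 5
    · have e1 := hbv ⟨i, hi⟩
      have e2 := hbv ⟨i + 1, hi2⟩
      simp only at e1 e2
      rw [e1, e2]
      exact hQmono _ _ (by rw [Fin.lt_def]; exact Nat.lt_succ_self i)
    · have e1 := hbv ⟨i, hi⟩
      simp only at e1
      have e3 : i + 1 = 5 := by omega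
      rw [e3, hb5, e1]
      exact hQk _
  have hbmono : ∀ i j, i ≤ j → j ≤ 5 → b i ≤ b j := by
    intro i j hij
    induction j, hij using Nat.le_induction with
    | base => intro _; exact le_rfl
    | succ j _ ih =>
      intro hj
      have := hbs j (by omega)
      have := ih (by omega)
      omega
  let A : Fin 5 → Finset V := fun i => (Finset.Ico (b i.val) (b (i.val + 1))).image c'
  have hmem : ∀ (i : Fin 5) v, v ∈ A i ↔ ∃ t, (b i.val ≤ t ∧ t < b (i.val + 1)) ∧ c' t = v := by
    intro i v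
    show v ∈ (Finset.Ico (b i.val) (b (i.val + 1))).image c' ↔ _
    rw [mem_image]
    simp only [mem_Ico]
  refine ⟨σ, A, fun i => conn_interval hc.adj (hbs i.val i.2), ?_, ?_, ?_, ?_⟩
  · have key : ∀ i j : Fin 5, i < j → Disjoint (A i) (A j) := by
      intro i j hij
      rw [disjoint_left]
      intro v hv hv'
      obtain ⟨s, ⟨h1, h2⟩, h4⟩ := (hmem i v).mp hv
      obtain ⟨t, ⟨h5, h6⟩, h7⟩ := (hmem j v).mp hv'
      rw [Fin.lt_def] at hij
      have h8 := hbmono (i.val + 1) j.val (by omega) (by omega)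
      have h9 := hbk (j.val + 1)
      exact hc.inj s t (by omega) (by omega) (h4.trans h7.symm)
    intro i j hij
    rcases lt_or_gt_of_ne hij with h1 | h1
    · exact key _ _ h1
    · exact (key _ _ h1).symm
  · intro i
    rw [hmem]
    have := hbs i.val i.2
    refine ⟨Q i, ⟨?_, ?_⟩, (hzc i).symm⟩
    · rw [hbv i]
    · rw [← hbv i]; exact this
  · intro i v hv
    obtain ⟨t, _, ht⟩ := (hmem i v).mp hv
    exact ⟨t + r, ht.symm⟩
  · intro i
    have hs := hbs i.val i.2
    have h1 : c' (b (i.val + 1) - 1) ∈ A i := (hmem i _).mpr ⟨_, ⟨by omega, by omega⟩, rfl⟩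
    have hadj := hc.adj (b (i.val + 1) - 1)
    rw [show b (i.val + 1) - 1 + 1 = b (i.val + 1) by omega] at hadj
    refine hadj.joins h1 ?_
    rw [hmem]
    by_cases hi : i.val = 4
    · have e1 : (i + 1 : Fin 5) = 0 := by
        ext
        rw [Fin.val_add, hi]
        rfl
      rw [e1, hi]
      refine ⟨0, ⟨?_, ?_⟩, ?_⟩
      · show b 0 ≤ 0
        omega
      · have := hbs 0 (by omega)
        show 0 < b (0 + 1)
        omega
      · show c' 0 = c' (b 5)
        rw [hb5]
        have := hc.per 0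
        rw [Nat.zero_add] at this
        exact this.symm
    · have e1 : (i + 1 : Fin 5).val = i.val + 1 := by
        rw [Fin.val_add]
        have : (1 : Fin 5).val = 1 := rfl
        rw [this]
        have := i.2
        omega
      rw [e1]
      exact ⟨_, ⟨le_rfl, hbs _ (by have := i.2; omega)⟩, rfl⟩

/-- two circuits of length five which are joined by five edges, as a minor; `τ j` is the position on
the first circuit of the vertex which is joined to the `j`-th vertex of the second one -/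
def Lk5 (src dst : E → V) (τ : Fin 5 → Fin 5) : Prop :=
  ∃ A D : Fin 5 → Finset V, (∀ i, ConnSet src dst (A i)) ∧ (∀ i, ConnSet src dst (D i)) ∧
    (∀ i j, i ≠ j → Disjoint (A i) (A j)) ∧ (∀ i j, i ≠ j → Disjoint (D i) (D j)) ∧
    (∀ i j, Disjoint (A i) (D j)) ∧ (∀ i, ∃ e, JoinsSet src dst e (A i) (A (i + 1))) ∧
    (∀ i, ∃ e, JoinsSet src dst e (D i) (D (i + 1))) ∧
    ∀ j, ∃ e, JoinsSet src dst e (A (τ j)) (D j)

theorem exists_lk5 (hG : Good (Aj src dst)) (hne : ∃ x, Ni (Aj src dst) x) :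
    ∃ τ : Equiv.Perm (Fin 5), Lk5 src dst τ := by
  classical
  obtain ⟨k, c, m, d, hc, hd, hcd, hc1, hd1⟩ := hG.two hne
  obtain ⟨U, hU, hpath⟩ := hG.paths hc hd hcd hc1 hd1
  choose s t hs hp using hpath
  let Q : Fin 5 → Finset V := fun i => univ.filter (fun v => Relation.ReflTransGen
    (fun a b => Aj src dst a b ∧ (∀ t, b ≠ c t) ∧ (∀ t, b ≠ d t) ∧ b ∈ U i) (c (s i)) v)
  have hQ : ∀ i v, v ∈ Q i ↔ Relation.ReflTransGen
      (fun a b => Aj src dst a b ∧ (∀ t, b ≠ c t) ∧ (∀ t, b ≠ d t) ∧ b ∈ U i) (c (s i)) v := by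
    intro i v
    show v ∈ univ.filter _ ↔ _
    rw [mem_filter]
    simp
  have q2 : ∀ i, ∀ v ∈ Q i, v ∈ U i := by
    intro i v hv
    rw [hQ] at hv
    cases hv with
    | refl => exact hs i
    | tail _ h3 => exact h3.2.2.2
  have q3 : ∀ i, ∀ v ∈ Q i, ∀ t, v ≠ d t := by
    intro i v hv
    rw [hQ] at hv
    cases hv with
    | refl => exact fun t => hcd _ t
    | tail _ h3 => exact h3.2.2.1
  have q4 : ∀ i, ∀ v ∈ Q i, v = c (s i) ∨ ∀ t, v ≠ c t := by
    intro i v hv
    rw [hQ] at hv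
    cases hv with
    | refl => exact Or.inl rfl
    | tail _ h3 => exact Or.inr h3.2.1
  have q5 : ∀ i, d (t i) ∈ U i ∧ ∃ u ∈ Q i, Aj src dst u (d (t i)) := by
    intro i
    have key : ∀ v, Relation.ReflTransGen
        (fun a b => (Aj src dst a b ∧ (∀ t, b ≠ c t) ∧ ∀ t, a ≠ d t) ∧ b ∈ U i) (c (s i)) v →
        v ∈ Q i ∨ ((∃ t, v = d t) ∧ v ∈ U i ∧ ∃ u ∈ Q i, Aj src dst u v) := by
      intro v hv
      induction hv with
      | refl => exact Or.inl ((hQ _ _).mpr .refl)
      | @tail b e _ h3 ih =>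
        rcases ih with h4 | ⟨⟨r, hr⟩, _⟩
        · by_cases he : ∃ r, e = d r
          · exact Or.inr ⟨he, h3.2, b, h4, h3.1.1⟩
          · push Not at he
            left
            rw [hQ] at h4 ⊢
            exact h4.tail ⟨h3.1.1, h3.1.2.1, he, h3.2⟩
        · exact absurd hr (h3.1.2.2 r)
    rcases key _ (hp i) with h4 | ⟨_, h5, h6⟩
    · exact absurd rfl (q3 i _ h4 (t i))
    · exact ⟨h5, h6⟩
  have hxinj : Function.Injective (fun i => c (s i)) := by
    intro i j hij
    by_contra hne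
    have h1 := hs i
    have h2 : c (s i) = c (s j) := hij
    exact hU i j hne _ h1 (h2 ▸ hs j)
  have hyinj : Function.Injective (fun i => d (t i)) := by
    intro i j hij
    by_contra hne
    have h1 := (q5 i).1
    have h2 : d (t i) = d (t j) := hij
    exact hU i j hne _ h1 (h2 ▸ (q5 j).1)
  obtain ⟨σ, A, a1, a2, a3, a4, a5⟩ := arcs hc (fun i => c (s i)) (fun i => ⟨_, rfl⟩) hxinj
  obtain ⟨ρ, D, b1, b2, b3, b4, b5⟩ := arcs hd (fun i => d (t i)) (fun i => ⟨_, rfl⟩) hyinj
  have hAQ : ∀ i j, i ≠ j → Disjoint (A i) (Q (σ j)) := by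
    intro i j hij
    rw [disjoint_left]
    intro v hv hv2
    rcases q4 _ v hv2 with h1 | h1
    · have h2 := a3 j
      rw [← h1] at h2
      exact disjoint_left.mp (a2 i j hij) hv h2
    · obtain ⟨r, hr⟩ := a4 i v hv
      exact h1 r hr
  refine ⟨ρ.trans σ.symm, fun i => A i ∪ Q (σ i), D, fun i => ?_, b1, fun i j hij => ?_, b2,
    fun i j => ?_, fun i => ?_, b5, fun j => ?_⟩
  · refine cs_union (a1 i) ?_ (Or.inl ⟨c (s (σ i)), a3 i, (hQ _ _).mpr .refl⟩)
    exact connSet_reach (c (s (σ i))) _ (fun a b h => h.1) _ (hQ (σ i))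
  · rw [disjoint_union_left, disjoint_union_right, disjoint_union_right]
    refine ⟨⟨a2 i j hij, hAQ i j hij⟩, (hAQ j i hij.symm).symm, ?_⟩
    rw [disjoint_left]
    intro v hv hv2
    exact hU _ _ (fun h => hij (σ.injective h)) v (q2 _ v hv) (q2 _ v hv2)
  · rw [disjoint_left]
    intro v hv hv2
    obtain ⟨r, hr⟩ := b4 j v hv2
    rcases mem_union.mp hv with h1 | h1
    · obtain ⟨r', hr'⟩ := a4 i v h1
      exact hcd r' r (hr'.symm.trans hr)
    · exact q3 _ v h1 r hr
  · obtain ⟨e, he⟩ := a5 i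
    exact ⟨e, js_mono he subset_union_left subset_union_left⟩
  · obtain ⟨u, hu, hadj⟩ := (q5 (ρ j)).2
    refine hadj.joins ?_ (b3 j)
    refine mem_union_right _ ?_
    show u ∈ Q (σ (σ.symm (ρ j)))
    rw [Equiv.apply_symm_apply]
    exact hu

end Pool.Agent.H16.Cub
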