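import Mathlib

set_option autoImplicit false
set_option linter.unusedSectionVars false

/-! # Circuits in a graph given by an adjacency relation -/

namespace Pool.Agent.H16.Cub

open Finset

variable {V : Type}

/-- `c` runs periodically around a circuit of length `k` -/
structure Cyc (adj : V → V → Prop) (k : ℕ) (c : ℕ → V) : Prop where
  three : 3 ≤ k
  per : ∀ t, c (t + k) = c t
  inj : ∀ s t, s < t → t < s + k → c s ≠ c t
  adj : ∀ t, adj (c t) (c (t + 1))

variable {adj : V → V → Prop}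

theorem Cyc.mul {k : ℕ} {c : ℕ → V} (h : Cyc adj k c) (t n : ℕ) : c (t + k * n) = c t := by
  induction n with
  | zero => simp
  | succ n ih => rw [Nat.mul_succ, ← Nat.add_assoc, h.per, ih]

theorem Cyc.mod {k : ℕ} {c : ℕ → V} (h : Cyc adj k c) (t : ℕ) : c (t % k) = c t := by
  conv_rhs => rw [← Nat.mod_add_div t k]
  rw [h.mul]

/-- rotate the circuit -/
theorem Cyc.rot {k : ℕ} {c : ℕ → V} (h : Cyc adj k c) (r : ℕ) :
    Cyc adj k (fun t => c (t + r)) := by
  refine ⟨h.three, fun t => ?_, fun s t h1 h2 => ?_, fun t => ?_⟩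
  · have : t + k + r = (t + r) + k := by omega
    rw [this, h.per]
  · exact h.inj _ _ (by omega) (by omega)
  · have : t + 1 + r = (t + r) + 1 := by omega
    rw [this]
    exact h.adj _

theorem mkCyc {k : ℕ} (h3 : 3 ≤ k) (f : ℕ → V) (hinj : ∀ s t, s < t → t < k → f s ≠ f t)
    (hadj : ∀ t, t + 1 < k → adj (f t) (f (t + 1))) (hlast : adj (f (k - 1)) (f 0)) :
    Cyc adj k (fun t => f (t % k)) := by
  refine ⟨h3, fun t => ?_, fun s t h1 h2 => ?_, fun t => ?_⟩
  · show f ((t + k) % k) = f (t % k)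
    rw [Nat.add_mod_right]
  · show f (s % k) ≠ f (t % k)
    have hs : s % k < k := Nat.mod_lt _ (by omega)
    have ht : t % k < k := Nat.mod_lt _ (by omega)
    have hne : s % k ≠ t % k := by
      intro h
      have h4 : k ∣ t - s := (Nat.modEq_iff_dvd' h1.le).mp h
      have := Nat.le_of_dvd (by omega) h4
      omega
    rcases lt_or_gt_of_ne hne with h | h
    · exact hinj _ _ h ht
    · exact (hinj _ _ h hs).symm
  · show adj (f (t % k)) (f ((t + 1) % k))
    have ht : t % k < k := Nat.mod_lt _ (by omega)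
    by_cases h : t % k + 1 < k
    · have h5 : (t + 1) % k = t % k + 1 := by
        rw [Nat.add_mod, Nat.mod_eq_of_lt (show 1 < k by omega), Nat.mod_eq_of_lt h]
      rw [h5]
      exact hadj _ h
    · have h6 : t % k = k - 1 := by omega
      have h5 : (t + 1) % k = 0 := by
        rw [Nat.add_mod, Nat.mod_eq_of_lt (show 1 < k by omega), h6]
        have : k - 1 + 1 = k := by omega
        rw [this, Nat.mod_self]
      rw [h5, h6]
      exact hlast

/-- two different vertices of a circuit, in the better order -/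
theorem Cyc.pair {k : ℕ} {c : ℕ → V} (h : Cyc adj k c) {s t : ℕ} (hne : c s ≠ c t) :
    ∃ i l, 0 < l ∧ 2 * l ≤ k ∧ ((c i = c s ∧ c (i + l) = c t) ∨ (c i = c t ∧ c (i + l) = c s)) := by
  have h3 := h.three
  have key : ∀ s t, s < k → t < k → s < t →
      ∃ i l, 0 < l ∧ 2 * l ≤ k ∧
        ((c i = c s ∧ c (i + l) = c t) ∨ (c i = c t ∧ c (i + l) = c s)) := by
    intro s t hs ht hst
    by_cases hl : 2 * (t - s) ≤ k
    · refine ⟨s, t - s, by omega, hl, Or.inl ⟨rfl, ?_⟩⟩
      congr 1; omega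
    · refine ⟨t, k - (t - s), by omega, by omega, Or.inr ⟨rfl, ?_⟩⟩
      have : t + (k - (t - s)) = s + k := by omega
      rw [this, h.per]
  have hs : s % k < k := Nat.mod_lt _ (by omega)
  have ht : t % k < k := Nat.mod_lt _ (by omega)
  have hne2 : s % k ≠ t % k := by
    intro h4
    apply hne
    rw [← h.mod s, ← h.mod t, h4]
  rcases lt_or_gt_of_ne hne2 with h4 | h4
  · obtain ⟨i, l, h5, h6, h7⟩ := key _ _ hs ht h4
    rw [h.mod, h.mod] at h7
    exact ⟨i, l, h5, h6, h7⟩
  · obtain ⟨i, l, h5, h6, h7⟩ := key _ _ ht hs h4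
    rw [h.mod, h.mod] at h7
    exact ⟨i, l, h5, h6, h7.symm⟩

/-- a vertex outside with two neighbours on the circuit gives a shorter circuit -/
theorem Cyc.short {k : ℕ} {c : ℕ → V} (h : Cyc adj k c) (hsym : ∀ x y, adj x y → adj y x) {w : V}
    (hw : ∀ t, w ≠ c t) {s t : ℕ} (hne : c s ≠ c t) (h1 : adj w (c s)) (h2 : adj w (c t)) :
    ∃ k' c', Cyc adj k' c' ∧ 2 * k' ≤ k + 4 ∧ ∀ t, c' t = w ∨ ∃ s, c' t = c s := by
  obtain ⟨i, l, hl, hlk, hh⟩ := h.pair hne
  have h3 := h.three
  have h1' : adj w (c i) ∧ adj w (c (i + l)) := by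
    rcases hh with ⟨a, b⟩ | ⟨a, b⟩
    · rw [a, b]; exact ⟨h1, h2⟩
    · rw [a, b]; exact ⟨h2, h1⟩
  refine ⟨l + 2, _, mkCyc (by omega) (fun r => if r ≤ l then c (i + r) else w) ?_ ?_ ?_, by omega,
    fun t => ?_⟩
  · intro s t hst ht
    by_cases ht2 : t ≤ l
    · rw [if_pos (by omega), if_pos ht2]
      exact h.inj _ _ (by omega) (by omega)
    · rw [if_pos (by omega), if_neg ht2]
      exact (hw _).symm
  · intro t ht
    by_cases ht2 : t + 1 ≤ l
    · rw [if_pos (by omega), if_pos ht2]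
      exact h.adj _
    · rw [if_pos (by omega), if_neg ht2]
      have : t = l := by omega
      rw [this]
      exact hsym _ _ h1'.2
  · rw [if_neg (by omega), if_pos (by omega)]
    exact h1'.1
  · split_ifs
    · exact Or.inr ⟨_, rfl⟩
    · exact Or.inl rfl

/-- a chord gives a shorter circuit -/
theorem Cyc.chord {k : ℕ} {c : ℕ → V} (h : Cyc adj k c) (hsym : ∀ x y, adj x y → adj y x)
    {s t : ℕ} (hne : c s ≠ c t) (ha : adj (c s) (c t)) (h1 : c t ≠ c (s + 1))
    (h2 : c s ≠ c (t + 1)) :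
    ∃ k' c', Cyc adj k' c' ∧ 2 * k' ≤ k + 2 ∧ ∀ t, ∃ s, c' t = c s := by
  obtain ⟨i, l, hl, hlk, hh⟩ := h.pair hne
  have h3 := h.three
  have hnext : ∀ a b, c a = c b → c (a + 1) = c (b + 1) := by
    intro a b hab
    rw [← h.mod (a + 1), ← h.mod (b + 1)]
    have hab2 : a % k = b % k := by
      by_contra hne3
      have ha : a % k < k := Nat.mod_lt _ (by omega)
      have hb : b % k < k := Nat.mod_lt _ (by omega)
      rw [← h.mod a, ← h.mod b] at hab
      rcases lt_or_gt_of_ne hne3 with h4 | h4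
      · exact h.inj _ _ h4 (by omega) hab
      · exact h.inj _ _ h4 (by omega) hab.symm
    rw [Nat.add_mod a, hab2, ← Nat.add_mod]
  have hl1 : l ≠ 1 := by
    rintro rfl
    rcases hh with ⟨a, b⟩ | ⟨a, b⟩
    · exact h1 (by rw [← b, hnext _ _ a])
    · exact h2 (by rw [← b, hnext _ _ a])
  have h1' : adj (c (i + l)) (c i) := by
    rcases hh with ⟨a, b⟩ | ⟨a, b⟩
    · rw [a, b]; exact hsym _ _ ha
    · rw [a, b]; exact ha
  refine ⟨l + 1, _, mkCyc (by omega) (fun r => c (i + r)) ?_ ?_ ?_, by omega,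
    fun t => ⟨_, rfl⟩⟩
  · intro s t hst ht
    exact h.inj _ _ (by omega) (by omega)
  · intro t ht
    exact h.adj _
  · exact h1'

/-- **Existence of circuits** in sets with minimum degree two. -/
theorem exists_cyc [Finite V] (W : Set V) (hirr : ∀ x, ¬ adj x x) (hW : W.Nonempty)
    (h2 : ∀ u, ∀ v ∈ W, ∃ w ∈ W, adj v w ∧ w ≠ u) :
    ∃ k c, Cyc adj k c ∧ ∀ t, c t ∈ W := by
  classical
  obtain ⟨v0, hv0⟩ := hW
  have h2' : ∀ u v, ∃ w, v ∈ W → (w ∈ W ∧ adj v w ∧ w ≠ u) := by
    intro u v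
    by_cases hv : v ∈ W
    · obtain ⟨w, a, b⟩ := h2 u v hv
      exact ⟨w, fun _ => ⟨a, b⟩⟩
    · exact ⟨v, fun h => absurd h hv⟩
  choose nx hnx using h2'
  let st : ℕ → V × V := fun n => Nat.rec (v0, v0) (fun _ p => (p.2, nx p.1 p.2)) n
  have st0 : st 0 = (v0, v0) := rfl
  have stS : ∀ n, st (n + 1) = ((st n).2, nx (st n).1 (st n).2) := fun n => rfl
  have hmem : ∀ n, (st n).2 ∈ W := by
    intro n
    induction n with
    | zero => exact hv0
    | succ n ih =>
      rw [stS]
      exact (hnx _ _ ih).1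
  have hadj : ∀ n, adj (st n).2 (st (n + 1)).2 := by
    intro n
    rw [stS]
    exact (hnx _ _ (hmem n)).2.1
  have hback : ∀ n, (st (n + 2)).2 ≠ (st n).2 := by
    intro n
    have h5 := (hnx (st (n + 1)).1 _ (hmem (n + 1))).2.2
    rw [stS (n + 1)]
    show nx (st (n + 1)).1 (st (n + 1)).2 ≠ (st n).2
    have h6 : (st (n + 1)).1 = (st n).2 := by rw [stS]
    rw [h6] at h5 ⊢
    exact h5
  have hex : ∃ d, 0 < d ∧ ∃ s, (st s).2 = (st (s + d)).2 := by
    obtain ⟨a, b, hab, h⟩ := Finite.exists_ne_map_eq_of_infinite (fun n => (st n).2)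
    rcases lt_or_gt_of_ne hab with h1 | h1
    · exact ⟨b - a, by omega, a, by rw [show a + (b - a) = b by omega]; exact h⟩
    · exact ⟨a - b, by omega, b, by rw [show b + (a - b) = a by omega]; exact h.symm⟩
  obtain ⟨hd0, s, hs⟩ := Nat.find_spec hex
  set d := Nat.find hex with hd
  have hmin : ∀ d', 0 < d' → d' < d → ∀ s, (st s).2 ≠ (st (s + d')).2 := by
    intro d' h1 h3 s h4
    exact Nat.find_min hex h3 ⟨h1, s, h4⟩
  have hd3 : 3 ≤ d := by
    by_contra hlt
    have h12 : d = 1 ∨ d = 2 := by omega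
    rcases h12 with h1 | h1
    · rw [h1] at hs
      have h4 := hadj s
      rw [← hs] at h4
      exact hirr _ h4
    · rw [h1] at hs
      exact hback s hs.symm
  refine ⟨d, _, mkCyc hd3 (fun r => (st (s + r)).2) ?_ ?_ ?_, fun t => hmem _⟩
  · intro a b hab hb
    have := hmin (b - a) (by omega) (by omega) (s + a)
    rw [show s + a + (b - a) = s + b by omega] at this
    exact this
  · intro t _
    exact hadj _
  · show adj (st (s + (d - 1))).2 (st (s + 0)).2
    have h5 := hadj (s + (d - 1))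
    rw [show s + (d - 1) + 1 = s + d by omega, ← hs] at h5
    exact h5

end Pool.Agent.H16.Cub
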