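import Pool.Agent.H16.Lib.S8.TH676.T4.Pet

set_option autoImplicit false
set_option linter.unusedSectionVars false

/-! # Minors by branch sets -/

namespace Pool.Agent.H16.Cub

open Finset Pool.Agent.TH462.T4 Pool.Agent.TH676.T4

variable {V E : Type} [Fintype V] [DecidableEq V] [Fintype E] [DecidableEq E]
variable {K L : Type}

/-- the graph with the edges `pa l, pb l` is a minor -/
def Mnr (pa pb : L → K) (src dst : E → V) : Prop :=
  ∃ B : K → Finset V, (∀ i, ConnSet src dst (B i)) ∧ (∀ i j, i ≠ j → Disjoint (B i) (B j)) ∧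
    ∀ l, ∃ e, JoinsSet src dst e (B (pa l)) (B (pb l))

theorem Mnr.of_lp {pa pb : L → K} (hne : ∀ l, pa l ≠ pb l) {src dst : E → V}
    {e : E} (h : Mnr pa pb src (TH462.T4.lp src dst {e})) : Mnr pa pb src dst := by
  obtain ⟨B, h1, h2, h3⟩ := h
  refine ⟨B, fun i => ⟨(h1 i).1, fun A hA hA0 hA1 => ?_⟩, h2, fun l => ?_⟩
  · obtain ⟨d, hd⟩ := (h1 i).2 A hA hA0 hA1
    exact ⟨d, hd.of_lp disjoint_sdiff⟩
  · obtain ⟨d, hd⟩ := h3 l
    exact ⟨d, hd.of_lp (h2 _ _ (hne l))⟩

theorem Mnr.of_ctr {pa pb : L → K} (hcov : ∀ i, ∃ l, pa l = i ∨ pb l = i)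
    {src dst : E → V} {e : E} (hne : src e ≠ dst e)
    (h : Mnr pa pb (ctr (src e) (dst e) ∘ src) (ctr (src e) (dst e) ∘ dst)) :
    Mnr pa pb src dst := by
  obtain ⟨B, h1, h2, h3⟩ := h
  set c := ctr (src e) (dst e) with hc
  have hcid : ∀ x, x ≠ dst e → c x = x := by
    intro x hx; rw [hc]; unfold ctr; rw [if_neg hx]
  have hcv : c (dst e) = src e := by rw [hc]; unfold ctr; rw [if_pos rfl]
  have hcne : ∀ x, c x ≠ dst e := fun x => ctr_ne hne x
  have hv : ∀ i, dst e ∉ B i := by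
    intro i hi
    by_cases hB : ({dst e} : Finset V) = B i
    · obtain ⟨l, hxi⟩ := hcov i
      obtain ⟨d, hd⟩ := h3 l
      rcases hxi with rfl | rfl
      · rw [← hB] at hd
        rcases hd with ⟨a, _⟩ | ⟨_, a⟩
        · exact hcne _ (mem_singleton.mp a)
        · exact hcne _ (mem_singleton.mp a)
      · rw [← hB] at hd
        rcases hd with ⟨_, a⟩ | ⟨a, _⟩
        · exact hcne _ (mem_singleton.mp a)
        · exact hcne _ (mem_singleton.mp a)
    · obtain ⟨d, hd⟩ := (h1 i).2 {dst e} (singleton_subset_iff.mpr hi) (singleton_nonempty _) hB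
      rcases hd with ⟨a, _⟩ | ⟨_, a⟩
      · exact hcne _ (mem_singleton.mp a)
      · exact hcne _ (mem_singleton.mp a)
  refine ⟨fun i => univ.filter (fun x => c x ∈ B i), fun i => ⟨?_, ?_⟩, fun i j hij => ?_,
    fun l => ?_⟩
  · obtain ⟨x, hx⟩ := (h1 i).1
    refine ⟨x, ?_⟩
    have hxv : x ≠ dst e := fun h => hv i (h ▸ hx)
    simp [hcid x hxv, hx]
  · intro A hA hA0 hA1
    by_cases hsp : (src e ∈ A ∧ dst e ∉ A ∧ dst e ∈ univ.filter (fun x => c x ∈ B i)) ∨
        (dst e ∈ A ∧ src e ∉ A ∧ src e ∈ univ.filter (fun x => c x ∈ B i))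
    · refine ⟨e, ?_⟩
      unfold JoinsSet
      rcases hsp with ⟨a1, a2, a3⟩ | ⟨a1, a2, a3⟩
      · exact Or.inl ⟨a1, mem_sdiff.mpr ⟨a3, a2⟩⟩
      · exact Or.inr ⟨mem_sdiff.mpr ⟨a3, a2⟩, a1⟩
    · have hcs : c (src e) = src e := hcid _ hne
      have hsat : ∀ x y, c x = c y → x ∈ A → y ∈ A := by
        intro x y hxy hx
        by_cases h4 : x = dst e
        · by_cases h5 : y = dst e
          · rw [h5, ← h4]; exact hx
          · rw [h4, hcv, hcid y h5] at hxy
            subst hxy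
            by_contra h6
            refine hsp (Or.inr ⟨h4 ▸ hx, h6, ?_⟩)
            have h7 := hA hx
            rw [mem_filter] at h7 ⊢
            refine ⟨mem_univ _, ?_⟩
            rw [hcs, ← hcv, ← h4]
            exact h7.2
        · by_cases h5 : y = dst e
          · rw [h5, hcv, hcid x h4] at hxy
            subst hxy
            by_contra h6
            refine hsp (Or.inl ⟨hx, h5 ▸ h6, ?_⟩)
            have h7 := hA hx
            rw [mem_filter] at h7 ⊢
            refine ⟨mem_univ _, ?_⟩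
            rw [hcv, ← hcs]
            exact h7.2
          · rw [hcid x h4, hcid y h5] at hxy
            exact hxy ▸ hx
      have hmem : ∀ x, c x ∈ A.image c ↔ x ∈ A := by
        intro x
        rw [mem_image]
        constructor
        · rintro ⟨y, hy, hyx⟩
          exact hsat y x hyx hy
        · intro hx; exact ⟨x, hx, rfl⟩
      obtain ⟨d, hd⟩ := (h1 i).2 (A.image c) (by
        intro y hy
        obtain ⟨x, hx, rfl⟩ := mem_image.mp hy
        exact (mem_filter.mp (hA hx)).2) (hA0.image c) (by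
        intro heq
        apply hA1
        refine subset_antisymm hA fun x hx => ?_
        rw [mem_filter] at hx
        rw [← hmem, heq]
        exact hx.2)
      refine ⟨d, ?_⟩
      unfold JoinsSet at hd ⊢
      simp only [Function.comp, mem_sdiff, hmem, mem_filter, mem_univ, true_and] at hd ⊢
      exact hd
  · rw [disjoint_left]
    intro x hx hx2
    rw [mem_filter] at hx hx2
    exact disjoint_left.mp (h2 i j hij) hx.2 hx2.2
  · obtain ⟨d, hd⟩ := h3 l
    refine ⟨d, ?_⟩
    unfold JoinsSet at hd ⊢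
    simpa only [Function.comp, mem_filter, mem_univ, true_and] using hd

/-- the graphs without a certain minor are closed under deletions and contractions -/
theorem mc_noMnr {pa pb : L → K} (hne : ∀ l, pa l ≠ pb l)
    (hcov : ∀ i, ∃ l, pa l = i ∨ pb l = i) :
    MC (V := V) (E := E) (fun src dst => ¬ Mnr pa pb src dst) where
  del := fun _ _ _ h _ h2 => h (h2.of_lp hne)
  con := fun _ _ _ h hne' h2 => h (h2.of_ctr hcov hne')

/-! ### connected sets -/

theorem js_symm {src dst : E → V} {e : E} {A B : Finset V} (h : JoinsSet src dst e A B) :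
    JoinsSet src dst e B A := by
  rcases h with ⟨a, b⟩ | ⟨a, b⟩
  · exact Or.inr ⟨a, b⟩
  · exact Or.inl ⟨a, b⟩

theorem js_mono {src dst : E → V} {e : E} {A B A' B' : Finset V}
    (h : JoinsSet src dst e A B) (hA : A ⊆ A') (hB : B ⊆ B') : JoinsSet src dst e A' B' := by
  rcases h with ⟨a, b⟩ | ⟨a, b⟩
  · exact Or.inl ⟨hA a, hB b⟩
  · exact Or.inr ⟨hB a, hA b⟩

/-- the union of two connected sets which meet or are joined by an edge -/
theorem cs_union {src dst : E → V} {A B : Finset V} (hA : ConnSet src dst A)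
    (hB : ConnSet src dst B) (h : (∃ x, x ∈ A ∧ x ∈ B) ∨ ∃ e, JoinsSet src dst e A B) :
    ConnSet src dst (A ∪ B) := by
  classical
  refine ⟨hA.1.mono subset_union_left, fun X hX hX0 hX1 => ?_⟩
  by_cases h1 : (X ∩ A).Nonempty ∧ X ∩ A ≠ A
  · obtain ⟨e, he⟩ := hA.2 (X ∩ A) inter_subset_right h1.1 h1.2
    refine ⟨e, js_mono he inter_subset_left ?_⟩
    intro y hy
    rw [mem_sdiff, mem_inter] at hy
    rw [mem_sdiff, mem_union]
    exact ⟨Or.inl hy.1, fun h5 => hy.2 ⟨h5, hy.1⟩⟩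
  by_cases h2 : (X ∩ B).Nonempty ∧ X ∩ B ≠ B
  · obtain ⟨e, he⟩ := hB.2 (X ∩ B) inter_subset_right h2.1 h2.2
    refine ⟨e, js_mono he inter_subset_left ?_⟩
    intro y hy
    rw [mem_sdiff, mem_inter] at hy
    rw [mem_sdiff, mem_union]
    exact ⟨Or.inr hy.1, fun h5 => hy.2 ⟨h5, hy.1⟩⟩
  have h1' : A ⊆ X ∨ Disjoint X A := by
    by_cases h3 : (X ∩ A).Nonempty
    · left
      have h4 : X ∩ A = A := by
        by_contra h5
        exact h1 ⟨h3, h5⟩
      rw [← h4]
      exact inter_subset_left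
    · right
      rw [not_nonempty_iff_eq_empty] at h3
      rwa [disjoint_iff_inter_eq_empty]
  have h2' : B ⊆ X ∨ Disjoint X B := by
    by_cases h3 : (X ∩ B).Nonempty
    · left
      have h4 : X ∩ B = B := by
        by_contra h5
        exact h2 ⟨h3, h5⟩
      rw [← h4]
      exact inter_subset_left
    · right
      rw [not_nonempty_iff_eq_empty] at h3
      rwa [disjoint_iff_inter_eq_empty]
  rcases h1' with h3 | h3 <;> rcases h2' with h4 | h4
  · exact absurd (subset_antisymm hX (union_subset h3 h4)) hX1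
  · rcases h with ⟨x, hxA, hxB⟩ | ⟨e, he⟩
    · exact absurd hxB (disjoint_left.mp h4 (h3 hxA))
    · refine ⟨e, js_mono he h3 fun y hy => ?_⟩
      rw [mem_sdiff, mem_union]
      exact ⟨Or.inr hy, fun h5 => disjoint_left.mp h4 h5 hy⟩
  · rcases h with ⟨x, hxA, hxB⟩ | ⟨e, he⟩
    · exact absurd hxA (disjoint_left.mp h3 (h4 hxB))
    · refine ⟨e, js_mono (js_symm he) h4 fun y hy => ?_⟩
      rw [mem_sdiff, mem_union]
      exact ⟨Or.inl hy, fun h5 => disjoint_left.mp h3 h5 hy⟩
  · exfalso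
    obtain ⟨x, hx⟩ := hX0
    rcases mem_union.mp (hX hx) with h5 | h5
    · exact disjoint_left.mp h3 hx h5
    · exact disjoint_left.mp h4 hx h5

/-- adjacent vertices -/
def Aj (src dst : E → V) (x y : V) : Prop := x ≠ y ∧ ∃ e, JV src dst e x y

theorem Aj.symm {src dst : E → V} {x y : V} (h : Aj src dst x y) : Aj src dst y x :=
  ⟨h.1.symm, JV.symm h.2⟩

theorem Aj.joins {src dst : E → V} {x y : V} (h : Aj src dst x y) {A B : Finset V} (hx : x ∈ A)
    (hy : y ∈ B) : ∃ e, JoinsSet src dst e A B := by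
  obtain ⟨-, e, he⟩ := h
  refine ⟨e, ?_⟩
  rcases he with ⟨h1, h2⟩ | ⟨h1, h2⟩
  · exact Or.inl ⟨h1 ▸ hx, h2 ▸ hy⟩
  · exact Or.inr ⟨h1 ▸ hy, h2 ▸ hx⟩

theorem connSet_singleton {src dst : E → V} (x : V) : ConnSet src dst {x} := by
  refine ⟨singleton_nonempty _, fun A hA hA0 hA1 => ?_⟩
  exact absurd (subset_antisymm hA (by
    obtain ⟨y, hy⟩ := hA0
    have := mem_singleton.mp (hA hy)
    rw [singleton_subset_iff, ← this]
    exact hy)) hA1

/-- a set of vertices reachable from `x` is connected -/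
theorem connSet_reach {src dst : E → V} (x : V) (r : V → V → Prop)
    (hr : ∀ a b, r a b → Aj src dst a b) (S : Finset V)
    (hS : ∀ v, v ∈ S ↔ Relation.ReflTransGen r x v) : ConnSet src dst S := by
  classical
  refine ⟨⟨x, (hS x).mpr .refl⟩, fun A hA hA0 hA1 => ?_⟩
  have key : ∀ P : V → Prop, P x → ∀ v, Relation.ReflTransGen r x v →
      P v ∨ ∃ a b, a ∈ S ∧ b ∈ S ∧ P a ∧ ¬ P b ∧ Aj src dst a b := by
    intro P hP v hv
    induction hv with
    | refl => exact Or.inl hP
    | @tail b e h1 h3 ih =>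
      rcases ih with h4 | h4
      · by_cases h5 : P e
        · exact Or.inl h5
        · exact Or.inr ⟨b, e, (hS b).mpr h1, (hS e).mpr (h1.tail h3), h4, h5, hr _ _ h3⟩
      · exact Or.inr h4
  by_cases hx : x ∈ A
  · obtain ⟨v, hv, hvA⟩ : ∃ v ∈ S, v ∉ A := by
      by_contra hno
      push Not at hno
      exact hA1 (subset_antisymm hA hno)
    rcases key (fun v => v ∈ A) hx v ((hS v).mp hv) with h1 | ⟨a, b, h1, h2, h3, h4, h5⟩
    · exact absurd h1 hvA
    · exact h5.joins h3 (mem_sdiff.mpr ⟨h2, h4⟩)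
  · obtain ⟨v, hv⟩ := hA0
    rcases key (fun v => v ∉ A) hx v ((hS v).mp (hA hv)) with h1 | ⟨a, b, h1, h2, h3, h4, h5⟩
    · exact absurd hv h1
    · exact h5.symm.joins (by_contra fun h6 => h4 h6) (mem_sdiff.mpr ⟨h1, h3⟩)

end Pool.Agent.H16.Cub
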