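import Pool.Agent.H16.Cub.Blk

set_option autoImplicit false
set_option linter.unusedSectionVars false

/-! # The cube, the permutation graphs and the Petersen graph -/

namespace Pool.Agent.H16.Cub

open Finset Pool.Agent.TH462.T4 Pool.Agent.TH676.T4

theorem cube_cut : ∀ J : Finset (Bool × Fin 4),
    (univ.filter (fun l : Fin 3 × Fin 4 => ¬ (pga id l ∈ J ↔ pgb l ∈ J))).card ≠ 2 := by
  decide +kernel

theorem cube_smp : ∀ k l : Fin 3 × Fin 4, (pga id k = pga id l ∧ pgb k = pgb l) ∨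
    (pga id k = pgb l ∧ pgb k = pga id l) → k = l := by
  decide +kernel

theorem nice_cube : Nice (pga (id : Fin 4 → Fin 4)) pgb :=
  ⟨pg_ne (by omega) id, cube_smp, pg_cov id, pair_of_cut (pg_ne (by omega) id) cube_cut⟩

/-- the number of changes around a circuit of length five -/
def chg (a : Fin 5 → Bool) : ℕ := ∑ i, if a i = a (i + 1) then 0 else 1

theorem chg1 : ∀ a : Fin 5 → Bool, chg a = 0 → ∀ i, a i = a 0 := by decide +kernel

theorem chg2 : ∀ a : Fin 5 → Bool, chg a = 0 ∨ 2 ≤ chg a := by decide +kernel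

theorem chg3 : ∀ (v : Bool) (d : Fin 5 → Bool),
    chg d + ∑ j, (if v = d j then 0 else 1) ≠ 2 := by decide +kernel

theorem perm_cut {τ : Fin 5 → Fin 5} (hinj : Function.Injective τ) (J : Finset (Bool × Fin 5)) :
    (univ.filter (fun l : Fin 3 × Fin 5 => ¬ (pga τ l ∈ J ↔ pgb l ∈ J))).card ≠ 2 := by
  classical
  set a : Fin 5 → Bool := fun i => decide ((false, i) ∈ J) with ha
  set d : Fin 5 → Bool := fun i => decide ((true, i) ∈ J) with hd
  have hsum : (univ.filter (fun l : Fin 3 × Fin 5 => ¬ (pga τ l ∈ J ↔ pgb l ∈ J))).card =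
      chg a + chg d + ∑ j, (if a (τ j) = d j then 0 else 1) := by
    rw [card_filter, Fintype.sum_prod_type, Fin.sum_univ_three]
    have key : ∀ p q : Bool × Fin 5, (if ¬ (p ∈ J ↔ q ∈ J) then 1 else 0 : ℕ) =
        if decide (p ∈ J) = decide (q ∈ J) then 0 else 1 := by
      intro p q
      by_cases h1 : p ∈ J <;> by_cases h2 : q ∈ J <;> simp [h1, h2]
    congr 1
    · congr 1
      · exact sum_congr rfl fun i _ => key _ _
      · exact sum_congr rfl fun i _ => key _ _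
    · exact sum_congr rfl fun i _ => key _ _
  rw [hsum]
  intro h2
  have hbij : Function.Surjective τ := Finite.surjective_of_injective hinj
  rcases chg2 a with h3 | h3
  · have h4 := chg1 a h3
    apply chg3 (a 0) d
    rw [h3, zero_add] at h2
    have h5 : ∀ j, a (τ j) = a 0 := fun j => h4 _
    simp only [h5] at h2
    exact h2
  · have h4 : chg d = 0 := by omega
    have h5 : ∑ j, (if a (τ j) = d j then 0 else 1) = 0 := by omega
    have h6 : ∀ j, a (τ j) = d j := by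
      intro j
      have h7 := (sum_eq_zero_iff.mp h5) j (mem_univ _)
      by_contra h8
      rw [if_neg h8] at h7
      exact one_ne_zero h7
    have h9 := chg1 d h4
    have h10 : ∀ i, a i = d 0 := by
      intro i
      obtain ⟨j, rfl⟩ := hbij i
      rw [h6, h9]
    have h11 : chg a = 0 := by
      unfold chg
      refine sum_eq_zero fun i _ => ?_
      rw [h10, h10, if_pos rfl]
    omega

theorem two_ne : ∀ i : Fin 5, ∀ j : Fin 5, i = j + 1 → i + 1 ≠ j := by decide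

theorem nice_perm {τ : Fin 5 → Fin 5} (hinj : Function.Injective τ) : Nice (pga τ) pgb := by
  refine ⟨pg_ne (by omega) τ, ?_, pg_cov τ, pair_of_cut (pg_ne (by omega) τ) (perm_cut hinj)⟩
  rintro ⟨b, i⟩ ⟨b', j⟩ h
  fin_cases b <;> fin_cases b'
  · have h' : (((false, i) : Bool × Fin 5) = (false, j) ∧ ((false, i + 1) : Bool × Fin 5) =
      (false, j + 1)) ∨ (((false, i) : Bool × Fin 5) = (false, j + 1) ∧
      ((false, i + 1) : Bool × Fin 5) = (false, j)) := h
    rcases h' with ⟨h1, -⟩ | ⟨h1, h2⟩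
    · rw [show i = j from (Prod.ext_iff.mp h1).2]
    · exact absurd (Prod.ext_iff.mp h2).2 (two_ne _ _ (Prod.ext_iff.mp h1).2)
  · have h' : (((false, i) : Bool × Fin 5) = (true, j) ∧ ((false, i + 1) : Bool × Fin 5) =
      (true, j + 1)) ∨ (((false, i) : Bool × Fin 5) = (true, j + 1) ∧
      ((false, i + 1) : Bool × Fin 5) = (true, j)) := h
    rcases h' with ⟨h1, -⟩ | ⟨h1, -⟩ <;> cases (Prod.ext_iff.mp h1).1
  · have h' : (((false, i) : Bool × Fin 5) = (false, τ j) ∧ ((false, i + 1) : Bool × Fin 5) =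
      (true, j)) ∨ (((false, i) : Bool × Fin 5) = (true, j) ∧
      ((false, i + 1) : Bool × Fin 5) = (false, τ j)) := h
    rcases h' with ⟨-, h1⟩ | ⟨h1, -⟩ <;> cases (Prod.ext_iff.mp h1).1
  · have h' : (((true, i) : Bool × Fin 5) = (false, j) ∧ ((true, i + 1) : Bool × Fin 5) =
      (false, j + 1)) ∨ (((true, i) : Bool × Fin 5) = (false, j + 1) ∧
      ((true, i + 1) : Bool × Fin 5) = (false, j)) := h
    rcases h' with ⟨h1, -⟩ | ⟨h1, -⟩ <;> cases (Prod.ext_iff.mp h1).1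
  · have h' : (((true, i) : Bool × Fin 5) = (true, j) ∧ ((true, i + 1) : Bool × Fin 5) =
      (true, j + 1)) ∨ (((true, i) : Bool × Fin 5) = (true, j + 1) ∧
      ((true, i + 1) : Bool × Fin 5) = (true, j)) := h
    rcases h' with ⟨h1, -⟩ | ⟨h1, h2⟩
    · rw [show i = j from (Prod.ext_iff.mp h1).2]
    · exact absurd (Prod.ext_iff.mp h2).2 (two_ne _ _ (Prod.ext_iff.mp h1).2)
  · have h' : (((true, i) : Bool × Fin 5) = (false, τ j) ∧ ((true, i + 1) : Bool × Fin 5) =
      (true, j)) ∨ (((true, i) : Bool × Fin 5) = (true, j) ∧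
      ((true, i + 1) : Bool × Fin 5) = (false, τ j)) := h
    rcases h' with ⟨h1, -⟩ | ⟨-, h1⟩ <;> cases (Prod.ext_iff.mp h1).1
  · have h' : (((false, τ i) : Bool × Fin 5) = (false, j) ∧ ((true, i) : Bool × Fin 5) =
      (false, j + 1)) ∨ (((false, τ i) : Bool × Fin 5) = (false, j + 1) ∧
      ((true, i) : Bool × Fin 5) = (false, j)) := h
    rcases h' with ⟨-, h1⟩ | ⟨-, h1⟩ <;> cases (Prod.ext_iff.mp h1).1
  · have h' : (((false, τ i) : Bool × Fin 5) = (true, j) ∧ ((true, i) : Bool × Fin 5) =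
      (true, j + 1)) ∨ (((false, τ i) : Bool × Fin 5) = (true, j + 1) ∧
      ((true, i) : Bool × Fin 5) = (true, j)) := h
    rcases h' with ⟨h1, -⟩ | ⟨h1, -⟩ <;> cases (Prod.ext_iff.mp h1).1
  · have h' : (((false, τ i) : Bool × Fin 5) = (false, τ j) ∧ ((true, i) : Bool × Fin 5) =
      (true, j)) ∨ (((false, τ i) : Bool × Fin 5) = (true, j) ∧
      ((true, i) : Bool × Fin 5) = (false, τ j)) := h
    rcases h' with ⟨-, h1⟩ | ⟨h1, -⟩
    · rw [show i = j from (Prod.ext_iff.mp h1).2]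
    · cases (Prod.ext_iff.mp h1).1

theorem nice_pet : Nice TH676.Blk.pa TH676.Blk.pb :=
  ⟨TH676.Blk.pab_ne, TH676.Blk.pab_inj, by decide, TH676.Blk.pair_not_mem⟩

variable {V E : Type} [Fintype V] [DecidableEq V] [Fintype E] [DecidableEq E]

theorem pet_mnr {src dst : E → V} (h : PetMinor src dst) :
    Mnr TH676.Blk.pa TH676.Blk.pb src dst := by
  obtain ⟨B, h1, h2, h3⟩ := h
  have key : ∀ l, (TH676.Blk.pa l, TH676.Blk.pb l) ∈ petEdges := by decide
  exact ⟨B, h1, h2, fun l => h3 _ (key l)⟩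

/-- 2-blocks do not have nowhere-zero flows, but they have no bridges -/
theorem blk_nf {n : ℕ} {S : Set (Fin n → ZMod 2)} {src dst : E → V}
    {vec : E → Fin n → ZMod 2} (hv : TH676.Blk.RepCo src dst vec) (hr : Set.range vec = S)
    (hz : (0 : Fin n → ZMod 2) ∉ S)
    (hL : ¬ ∃ L : (Fin n → ZMod 2) →ₗ[ZMod 2] (Fin 2 → ZMod 2), ∀ s ∈ S, L s ≠ 0) :
    Br src dst ∅ ∅ ∧ ¬ FlowOn src dst ∅ ∅ := by
  have h0 : ∀ e, vec e ≠ 0 := by
    intro e he
    apply hz
    rw [← hr, ← he]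
    exact ⟨e, rfl⟩
  refine ⟨fun Y _ => ?_, ?_⟩
  · rw [sdiff_empty]
    exact hv.br h0 Y
  · rintro ⟨f, f1, _, f3⟩
    obtain ⟨L, hL'⟩ := hv.map ⟨f, fun e => f3 e (notMem_empty _) (notMem_empty _),
      fun x => f1 x⟩
    apply hL
    refine ⟨L, fun s hs => ?_⟩
    rw [← hr] at hs
    obtain ⟨e, rfl⟩ := hs
    exact hL' e

/-- minors of the matroid -/
theorem has_minor {n : ℕ} {S : Set (Fin n → ZMod 2)} {src dst : E → V}
    {vec : E → Fin n → ZMod 2} (hv : TH676.Blk.RepCo src dst vec) (hr : Set.range vec = S)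
    {K L : Type} [Fintype K] [DecidableEq K] [Fintype L] [DecidableEq L] {pa pb : L → K}
    (hN : Nice pa pb) (hP : Mnr pa pb src dst) :
    ∃ (C : Set (Fin n → ZMod 2)) (t : L → Fin n → ZMod 2),
        C ⊆ S ∧ Set.range t ⊆ S ∧ Function.Injective t ∧
        ∀ x : L → ZMod 2, ∑ k, x k • t k ∈ Submodule.span (ZMod 2) C ↔ x ∈ CS pa pb := by
  obtain ⟨D, ed, hinj, hx⟩ := minor_gen hv hN hP
  refine ⟨vec '' (D : Set E), fun k => vec (ed k), ?_, ?_, hinj, hx⟩
  · rintro _ ⟨e, _, rfl⟩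
    rw [← hr]
    exact ⟨e, rfl⟩
  · rintro _ ⟨k, rfl⟩
    rw [← hr]
    exact ⟨ed k, rfl⟩

end Pool.Agent.H16.Cub
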