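import Pool.Agent.H16.Cub.Arc

set_option autoImplicit false
set_option linter.unusedSectionVars false

/-! # Permutation graphs of the circuit of length five: Petersen graph or cube minor -/

namespace Pool.Agent.H16.Cub

open Finset Pool.Agent.TH462.T4 Pool.Agent.TH676.T4

variable {V E : Type} [Fintype V] [DecidableEq V] [Fintype E] [DecidableEq E]
variable {src dst : E → V}

/-- the next vertex on the circuit `1, 2, 3, 4` -/
def n4 : Fin 5 → Fin 5 := ![0, 2, 3, 4, 1]

/-- the cyclic order of four of the five vertices is preserved -/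
def Par (τ : Fin 5 → Fin 5) : Prop :=
  ∀ s : Fin 5, s ≠ 0 → τ (n4 s) = n4 (τ s) ∨ τ s = n4 (τ (n4 s))

/-- parallel spokes: the permutation graph has a circuit of length four -/
def Has4 (τ : Fin 5 → Fin 5) : Prop := ∃ j, τ (j + 1) = τ j + 1 ∨ τ j = τ (j + 1) + 1

/-- the permutation graph is the Petersen graph -/
def Star5 (τ : Fin 5 → Fin 5) : Prop := ∀ j, τ (j + 2) = τ j + 1 ∨ τ j = τ (j + 2) + 1

theorem comb5 : ∀ a b c d e : Fin 5, a ≠ b → a ≠ c → a ≠ d → a ≠ e → b ≠ c → b ≠ d → b ≠ e →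
    c ≠ d → c ≠ e → d ≠ e →
    (¬ (∃ j, ![a, b, c, d, e] (j + 1) = ![a, b, c, d, e] j + 1 ∨
      ![a, b, c, d, e] j = ![a, b, c, d, e] (j + 1) + 1) →
      ∀ j, ![a, b, c, d, e] (j + 2) = ![a, b, c, d, e] j + 1 ∨
        ![a, b, c, d, e] j = ![a, b, c, d, e] (j + 2) + 1) ∧
    ((∃ j, ![a, b, c, d, e] (j + 1) = ![a, b, c, d, e] j + 1 ∨
      ![a, b, c, d, e] j = ![a, b, c, d, e] (j + 1) + 1) →
      ∃ r, ∀ s : Fin 5, s ≠ 0 →
        ![a, b, c, d, e] (n4 s + r) - ![a, b, c, d, e] r =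
          n4 (![a, b, c, d, e] (s + r) - ![a, b, c, d, e] r) ∨
        ![a, b, c, d, e] (s + r) - ![a, b, c, d, e] r =
          n4 (![a, b, c, d, e] (n4 s + r) - ![a, b, c, d, e] r)) := by
  decide


/-- rotating the circuits -/
theorem Lk5.rot {τ : Fin 5 → Fin 5} (h : Lk5 src dst τ) (r : Fin 5) :
    Lk5 src dst (fun s => τ (s + r) - τ r) := by
  obtain ⟨A, D, h1, h2, h3, h4, h5, h6, h7, h8⟩ := h
  refine ⟨fun i => A (i + τ r), fun j => D (j + r), fun i => h1 _, fun i => h2 _,
    fun i j hij => h3 _ _ (fun h => hij (add_right_cancel h)),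
    fun i j hij => h4 _ _ (fun h => hij (add_right_cancel h)), fun i j => h5 _ _, fun i => ?_,
    fun i => ?_, fun j => ?_⟩
  · obtain ⟨e, he⟩ := h6 (i + τ r)
    refine ⟨e, ?_⟩
    show JoinsSet src dst e (A (i + τ r)) (A (i + 1 + τ r))
    rw [add_right_comm]
    exact he
  · obtain ⟨e, he⟩ := h7 (i + r)
    refine ⟨e, ?_⟩
    show JoinsSet src dst e (D (i + r)) (D (i + 1 + r))
    rw [add_right_comm]
    exact he
  · obtain ⟨e, he⟩ := h8 (j + r)
    refine ⟨e, ?_⟩
    show JoinsSet src dst e (A (τ (j + r) - τ r + τ r)) (D (j + r))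
    rw [sub_add_cancel]
    exact he

/-- merge the sets `0` and `1` -/
def mg (A : Fin 5 → Finset V) (i : Fin 5) : Finset V := if i = 1 then A 0 ∪ A 1 else A i

theorem mg_conn {A : Fin 5 → Finset V} (h1 : ∀ i, ConnSet src dst (A i))
    (h6 : ∀ i, ∃ e, JoinsSet src dst e (A i) (A (i + 1))) (i : Fin 5) :
    ConnSet src dst (mg A i) := by
  unfold mg
  split_ifs
  · exact cs_union (h1 0) (h1 1) (Or.inr (h6 0))
  · exact h1 i

theorem mg_disj {A : Fin 5 → Finset V} (h3 : ∀ i j, i ≠ j → Disjoint (A i) (A j)) (i j : Fin 5)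
    (hi : i ≠ 0) (hj : j ≠ 0) (hij : i ≠ j) : Disjoint (mg A i) (mg A j) := by
  unfold mg
  by_cases h1 : i = 1
  · rw [if_pos h1, if_neg (fun h => hij (h1.trans h.symm)), disjoint_union_left]
    exact ⟨h3 _ _ hj.symm, h3 _ _ (fun h => hij (h1.trans h))⟩
  · by_cases h2 : j = 1
    · rw [if_neg h1, if_pos h2, disjoint_union_right]
      exact ⟨h3 _ _ hi, h3 _ _ h1⟩
    · rw [if_neg h1, if_neg h2]
      exact h3 _ _ hij

theorem mg_sub {A : Fin 5 → Finset V} (i : Fin 5) : A i ⊆ mg A i := by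
  unfold mg
  split_ifs with h
  · rw [h]; exact subset_union_right
  · exact subset_rfl

theorem mg_join {A : Fin 5 → Finset V}
    (h6 : ∀ i, ∃ e, JoinsSet src dst e (A i) (A (i + 1))) (i : Fin 5) (hi : i ≠ 0) :
    ∃ e, JoinsSet src dst e (mg A i) (mg A (n4 i)) := by
  have key : ∀ i : Fin 5, i ≠ 0 → i ≠ 4 → n4 i = i + 1 := by decide
  by_cases h4 : i = 4
  · subst h4
    obtain ⟨e, he⟩ := h6 4
    refine ⟨e, js_mono he (mg_sub 4) ?_⟩
    show A (4 + 1) ⊆ mg A 1
    unfold mg
    rw [if_pos rfl]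
    exact subset_union_left
  · rw [key i hi h4]
    obtain ⟨e, he⟩ := h6 i
    exact ⟨e, js_mono he (mg_sub i) (mg_sub _)⟩

/-- two circuits of length `n` joined by a perfect matching: first ends of the edges -/
def pga {n : ℕ} (τ : Fin n → Fin n) : Fin 3 × Fin n → Bool × Fin n
  | (0, i) => (false, i)
  | (1, i) => (true, i)
  | (2, i) => (false, τ i)

/-- two circuits of length `n` joined by a perfect matching: second ends of the edges -/
def pgb {n : ℕ} [NeZero n] : Fin 3 × Fin n → Bool × Fin n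
  | (0, i) => (false, i + 1)
  | (1, i) => (true, i + 1)
  | (2, i) => (true, i)

theorem n4_succ : ∀ s : Fin 4, n4 s.succ = (s + 1).succ := by decide

theorem Lk5.cube0 {τ : Fin 5 → Fin 5} (h : Lk5 src dst τ) (hinj : Function.Injective τ)
    (h0 : τ 0 = 0) (hp : Par τ) : Mnr (pga (id : Fin 4 → Fin 4)) pgb src dst := by
  obtain ⟨A, D, h1, h2, h3, h4, h5, h6, h7, h8⟩ := h
  have hτ : ∀ s, s ≠ 0 → τ s ≠ 0 := fun s hs h => hs (hinj (h.trans h0.symm))
  have hA : ∀ i j, Disjoint (mg A i) (mg D j) := by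
    intro i j
    unfold mg
    split_ifs <;> simp only [disjoint_union_left, disjoint_union_right, h5, and_self]
  have hC : ∀ s, s ≠ 0 → ∃ e, JoinsSet src dst e (mg A (τ s)) (mg A (τ (n4 s))) := by
    intro s hs
    have hn : n4 s ≠ 0 := by
      revert hs; revert s; decide
    rcases hp s hs with h9 | h9
    · rw [h9]
      exact mg_join h6 _ (hτ s hs)
    · rw [h9]
      obtain ⟨e, he⟩ := mg_join h6 (τ (n4 s)) (hτ _ hn)
      exact ⟨e, js_symm he⟩
  have hS : ∀ s, ∃ e, JoinsSet src dst e (mg A (τ s)) (mg D s) := by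
    intro s
    obtain ⟨e, he⟩ := h8 s
    exact ⟨e, js_mono he (mg_sub _) (mg_sub _)⟩
  refine ⟨fun p => bif p.1 then mg D p.2.succ else mg A (τ p.2.succ), ?_, ?_, ?_⟩
  · rintro ⟨b, i⟩
    cases b
    · exact mg_conn h1 h6 _
    · exact mg_conn h2 h7 _
  · rintro ⟨b1, s1⟩ ⟨b2, s2⟩ hne
    have hi : s1.succ ≠ 0 := Fin.succ_ne_zero _
    have hj : s2.succ ≠ 0 := Fin.succ_ne_zero _
    cases b1 <;> cases b2
    · refine mg_disj h3 _ _ (hτ _ hi) (hτ _ hj) (fun h => hne ?_)
      rw [show s1 = s2 from Fin.succ_injective _ (hinj h)]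
    · exact hA _ _
    · exact (hA _ _).symm
    · refine mg_disj h4 _ _ hi hj (fun h => hne ?_)
      rw [show s1 = s2 from Fin.succ_injective _ h]
  · rintro ⟨b, i⟩
    fin_cases b
    · show ∃ e, JoinsSet src dst e (mg A (τ i.succ)) (mg A (τ (i + 1).succ))
      rw [← n4_succ]
      exact hC _ (Fin.succ_ne_zero _)
    · show ∃ e, JoinsSet src dst e (mg D i.succ) (mg D (i + 1).succ)
      rw [← n4_succ]
      exact mg_join h7 _ (Fin.succ_ne_zero _)
    · exact hS i.succ

theorem ofFn5 (τ : Fin 5 → Fin 5) : ![τ 0, τ 1, τ 2, τ 3, τ 4] = τ := by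
  funext i
  fin_cases i <;> rfl

theorem has4_or_star5 {τ : Fin 5 → Fin 5} (hinj : Function.Injective τ) (h : ¬ Has4 τ) :
    Star5 τ := by
  have h1 := (comb5 (τ 0) (τ 1) (τ 2) (τ 3) (τ 4) (fun h => by cases hinj h)
    (fun h => by cases hinj h) (fun h => by cases hinj h) (fun h => by cases hinj h)
    (fun h => by cases hinj h) (fun h => by cases hinj h) (fun h => by cases hinj h)
    (fun h => by cases hinj h) (fun h => by cases hinj h) (fun h => by cases hinj h)).1
  rw [ofFn5] at h1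
  exact h1 h

theorem exists_par {τ : Fin 5 → Fin 5} (hinj : Function.Injective τ) (h : Has4 τ) :
    ∃ r, Par (fun s => τ (s + r) - τ r) := by
  have h1 := (comb5 (τ 0) (τ 1) (τ 2) (τ 3) (τ 4) (fun h => by cases hinj h)
    (fun h => by cases hinj h) (fun h => by cases hinj h) (fun h => by cases hinj h)
    (fun h => by cases hinj h) (fun h => by cases hinj h) (fun h => by cases hinj h)
    (fun h => by cases hinj h) (fun h => by cases hinj h) (fun h => by cases hinj h)).2
  rw [ofFn5] at h1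
  exact h1 h

/-- **the cube** -/
theorem Lk5.cube {τ : Fin 5 → Fin 5} (h : Lk5 src dst τ) (hinj : Function.Injective τ)
    (h4 : Has4 τ) : Mnr (pga (id : Fin 4 → Fin 4)) pgb src dst := by
  obtain ⟨r, hr⟩ := exists_par hinj h4
  refine (h.rot r).cube0 ?_ ?_ hr
  · intro s t hst
    have h1 : τ (s + r) - τ r = τ (t + r) - τ r := hst
    have h2 : τ (s + r) = τ (t + r) := sub_left_injective h1
    exact add_right_cancel (hinj h2)
  · show τ (0 + r) - τ r = 0
    rw [zero_add, sub_self]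

/-- labels -/
def tp : Fin 10 → Bool × Fin 5 :=
  ![(false, 0), (false, 1), (false, 2), (false, 3), (false, 4), (true, 0), (true, 1), (true, 2),
    (true, 3), (true, 4)]

theorem tp_inj : ∀ i j, tp i = tp j → i = j := by decide

/-- **the Petersen graph** -/
theorem Lk5.pet {τ : Fin 5 → Fin 5} (h : Lk5 src dst τ) (hinj : Function.Injective τ)
    (h5' : Star5 τ) : PetMinor src dst := by
  obtain ⟨A, D, h1, h2, h3, h4, h5, h6, h7, h8⟩ := h
  let X : Bool × Fin 5 → Finset V := fun p => bif p.1 then A (τ p.2) else D p.2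
  have hS : ∀ s, ∃ e, JoinsSet src dst e (A (τ s)) (A (τ (s + 2))) := by
    intro s
    rcases h5' s with h9 | h9
    · rw [h9]; exact h6 _
    · rw [h9]
      obtain ⟨e, he⟩ := h6 (τ (s + 2))
      exact ⟨e, js_symm he⟩
  have h8' : ∀ j, ∃ e, JoinsSet src dst e (D j) (A (τ j)) := by
    intro j
    obtain ⟨e, he⟩ := h8 j
    exact ⟨e, js_symm he⟩
  refine ⟨fun i => X (tp i), fun i => ?_, fun i j hij => ?_, fun x hx => ?_⟩
  · show ConnSet src dst (bif (tp i).1 then A (τ (tp i).2) else D (tp i).2)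
    cases (tp i).1
    · exact h2 _
    · exact h1 _
  · have hne : tp i ≠ tp j := fun h => hij (tp_inj i j h)
    show Disjoint (X (tp i)) (X (tp j))
    generalize tp i = p at *
    generalize tp j = q at *
    obtain ⟨b1, s1⟩ := p
    obtain ⟨b2, s2⟩ := q
    cases b1 <;> cases b2
    · refine h4 _ _ (fun h => hne ?_)
      rw [show s1 = s2 from h]
    · exact (h5 _ _).symm
    · exact h5 _ _
    · refine h3 _ _ (fun h => hne ?_)
      rw [show s1 = s2 from hinj h]
  · unfold petEdges at hx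
    simp only [List.mem_cons, List.not_mem_nil, or_false] at hx
    rcases hx with rfl | rfl | rfl | rfl | rfl | rfl | rfl | rfl | rfl | rfl | rfl | rfl | rfl |
      rfl | rfl
    · exact h7 0
    · exact h7 1
    · exact h7 2
    · exact h7 3
    · exact h7 4
    · exact hS 0
    · exact hS 2
    · exact hS 4
    · exact hS 1
    · exact hS 3
    · exact h8' 0
    · exact h8' 1
    · exact h8' 2
    · exact h8' 3
    · exact h8' 4

theorem Lk5.mnr {τ : Fin 5 → Fin 5} (h : Lk5 src dst τ) : Mnr (pga τ) pgb src dst := by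
  obtain ⟨A, D, h1, h2, h3, h4, h5, h6, h7, h8⟩ := h
  refine ⟨fun p => bif p.1 then D p.2 else A p.2, ?_, ?_, ?_⟩
  · rintro ⟨b, i⟩
    cases b
    · exact h1 _
    · exact h2 _
  · rintro ⟨b1, s1⟩ ⟨b2, s2⟩ hne
    cases b1 <;> cases b2
    · refine h3 _ _ (fun h => hne ?_)
      rw [show s1 = s2 from h]
    · exact h5 _ _
    · exact (h5 _ _).symm
    · refine h4 _ _ (fun h => hne ?_)
      rw [show s1 = s2 from h]
  · rintro ⟨b, i⟩
    fin_cases b
    · exact h6 i
    · exact h7 i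
    · exact h8 i

end Pool.Agent.H16.Cub
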