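import Pool.Agent.H16.Lib.S8.TH676.Blk.Main

set_option autoImplicit false
set_option linter.unusedSectionVars false

/-! # Tangential 2-blocks with a Petersen minor (copied from the library module `N399/TB/Blk`) -/

namespace Pool.Agent.H16.Cub

open Finset

/-- tangential 2-blocks with a Petersen minor -/
theorem blk_tan {n : ℕ} {S : Set (Fin n → ZMod 2)}
    (htan : ∀ C T : Set (Fin n → ZMod 2), C ⊆ S → T ⊆ S → T ≠ S →
      (∀ t ∈ T, t ∉ Submodule.span (ZMod 2) C) →
      ∃ L : (Fin n → ZMod 2) →ₗ[ZMod 2] (Fin 2 → ZMod 2),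
        (∀ c ∈ C, L c = 0) ∧ ∀ t ∈ T, L t ≠ 0)
    {C : Set (Fin n → ZMod 2)} {t : Fin 15 → Fin n → ZMod 2} (hC : C ⊆ S)
    (ht : Set.range t ⊆ S)
    (hx : ∀ x : Fin 15 → ZMod 2, ∑ k, x k • t k ∈ Submodule.span (ZMod 2) C ↔
      x ∈ TH676.Blk.PC) :
    ∃ ψ : (Fin 15 → ZMod 2) →ₗ[ZMod 2] (Fin n → ZMod 2),
      LinearMap.ker ψ = TH676.Blk.PC ∧
      ⇑ψ '' Set.range (fun k : Fin 15 => (Pi.single k (1 : ZMod 2) : Fin 15 → ZMod 2)) = S := by
  classical
  have hsum1 : ∀ k, ∑ m, (Pi.single k 1 : Fin 15 → ZMod 2) m • t m = t k := by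
    intro k
    simp only [Pi.single_apply, ite_smul, one_smul, zero_smul, Finset.sum_ite_eq',
      Finset.mem_univ, if_true]
  have hsp : ∀ k, t k ∉ Submodule.span (ZMod 2) C := by
    intro k hk
    apply TH676.Blk.single_not_mem k
    rw [← hx, hsum1]
    exact hk
  have hTS : Set.range t = S := by
    by_contra hne
    obtain ⟨L, hL1, hL2⟩ := htan C (Set.range t) hC ht hne (by
      rintro _ ⟨k, rfl⟩
      exact hsp k)
    obtain ⟨k, hk⟩ := TH676.Blk.pet_flow (fun k => ((L (t k)) 0, (L (t k)) 1)) (by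
      intro x hxP
      have h3 := (hx x).mpr hxP
      have h4 : L (∑ k, x k • t k) = 0 := by
        have hle : Submodule.span (ZMod 2) C ≤ LinearMap.ker L :=
          Submodule.span_le.mpr (fun c hc => hL1 c hc)
        exact hle h3
      rw [map_sum] at h4
      simp only [map_smul] at h4
      have h5 := congrFun h4 0
      have h6 := congrFun h4 1
      rw [Finset.sum_apply] at h5 h6
      refine Prod.ext ?_ ?_
      · rw [Prod.fst_sum]
        exact h5
      · rw [Prod.snd_sum]
        exact h6)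
    apply hL2 (t k) ⟨k, rfl⟩
    funext i
    fin_cases i
    · exact congrArg Prod.fst hk
    · exact congrArg Prod.snd hk
  have hC0 : C = ∅ := by
    rw [Set.eq_empty_iff_forall_notMem]
    intro c hc
    have h3 := hC hc
    rw [← hTS] at h3
    obtain ⟨k, rfl⟩ := h3
    exact hsp k (Submodule.subset_span hc)
  refine ⟨Fintype.linearCombination (ZMod 2) t, ?_, ?_⟩
  · ext x
    rw [LinearMap.mem_ker, Fintype.linearCombination_apply, ← hx, hC0,
      Submodule.span_empty, Submodule.mem_bot]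
  · ext s
    rw [← hTS]
    constructor
    · rintro ⟨_, ⟨k, rfl⟩, rfl⟩
      refine ⟨k, ?_⟩
      rw [Fintype.linearCombination_apply]
      exact (hsum1 k).symm
    · rintro ⟨k, rfl⟩
      refine ⟨_, ⟨k, rfl⟩, ?_⟩
      rw [Fintype.linearCombination_apply]
      exact hsum1 k

end Pool.Agent.H16.Cub
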